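import Pool.Agent.Helper99.SZ.Stmts

set_option autoImplicit false

namespace Pool.Helper99.SZ

open NumberField Finset

section

variable {L : Type} [Field L] [NumberField L] {P : Ideal (𝓞 L)}

theorem pdl_zero (hP : P.IsPrime) (t : ℕ) : Dv P t (0 : L) :=
  ⟨0, 1, (Ideal.ne_top_iff_one P).1 hP.ne_top, zero_mem _, by simp⟩

theorem pdl_sum (hP : P.IsPrime)
    (dadd : ∀ (t : ℕ) (x y : L), Dv P t x → Dv P t y → Dv P t (x + y))
    {α : Type*} (s : Finset α) (f : α → L) (t : ℕ) (h : ∀ i ∈ s, Dv P t (f i)) :
    Dv P t (∑ i ∈ s, f i) := by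
  classical
  induction s using Finset.induction_on with
  | empty => simpa using pdl_zero hP t
  | insert a s ha ih =>
    rw [sum_insert ha]
    exact dadd t _ _ (h a (mem_insert_self _ _)) (ih fun i hi => h i (mem_insert_of_mem hi))

theorem pdl_prod (d0 : ∀ x : 𝓞 L, Dv P 0 (x : L))
    (dmul : ∀ (s t : ℕ) (x y : L), Dv P s x → Dv P t y → Dv P (s + t) (x * y))
    {α : Type*} (s : Finset α) (f : α → L) (τ : α → ℕ) (h : ∀ i ∈ s, Dv P (τ i) (f i)) :
    Dv P (∑ i ∈ s, τ i) (∏ i ∈ s, f i) := by
  classical
  induction s using Finset.induction_on with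
  | empty => simpa using d0 1
  | insert a s ha ih =>
    rw [sum_insert ha, prod_insert ha]
    exact dmul _ _ _ _ (h a (mem_insert_self _ _)) (ih fun i hi => h i (mem_insert_of_mem hi))

theorem pdl_det (hP : P.IsPrime) (d0 : ∀ x : 𝓞 L, Dv P 0 (x : L))
    (dadd : ∀ (t : ℕ) (x y : L), Dv P t x → Dv P t y → Dv P t (x + y))
    (dneg : ∀ (t : ℕ) (x : L), Dv P t x → Dv P t (-x))
    (dmul : ∀ (s t : ℕ) (x y : L), Dv P s x → Dv P t y → Dv P (s + t) (x * y))
    {ι : Type} [Fintype ι] [DecidableEq ι] (A : Matrix ι ι L) (τ : ι → ℕ)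
    (h : ∀ j r, Dv P (τ j) (A j r)) : Dv P (∑ j, τ j) A.det := by
  rw [Matrix.det_apply]
  refine pdl_sum hP dadd _ _ _ fun σ _ => ?_
  have h1 : Dv P (∑ j, τ j) (∏ i, A (σ i) i) := by
    have h2 := pdl_prod d0 dmul univ (fun i => A (σ i) i) (fun i => τ (σ i))
      (fun i _ => h (σ i) i)
    rwa [Equiv.sum_comp σ τ] at h2
  rcases Int.units_eq_one_or (Equiv.Perm.sign σ) with h3 | h3
  · rw [h3, one_smul]; exact h1
  · rw [h3, Units.neg_smul, one_smul]; exact dneg _ _ h1

/-- too many rows in a small rational space -/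
theorem pdl_dep {ι : Type} [Fintype ι] [DecidableEq ι] (A : Matrix ι ι L)
    (W : Submodule ℚ (ι → ℚ)) (I0 : Finset ι) (hI : Module.finrank ℚ W < I0.card)
    (v : ι → L) (y : ι → ι → ℤ) (hy : ∀ j ∈ I0, (fun r => ((y j r : ℤ) : ℚ)) ∈ W)
    (hA : ∀ j ∈ I0, ∀ r, A j r = v j * ((y j r : ℤ) : L)) : A.det = 0 := by
  let yW : I0 → W := fun j => ⟨fun r => ((y j r : ℤ) : ℚ), hy j j.2⟩
  have hdep : ¬ LinearIndependent ℚ yW := by
    intro hli
    have := hli.fintype_card_le_finrank
    rw [Fintype.card_coe] at this
    omega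
  rw [Fintype.not_linearIndependent_iff] at hdep
  obtain ⟨g, hg, i0, hi0⟩ := hdep
  have hg2 : ∀ r, ∑ j : I0, g j * ((y j r : ℤ) : ℚ) = 0 := by
    intro r
    have h1 := congrArg (fun w : W => (w : ι → ℚ) r) hg
    simpa [yW] using h1
  let A' : Matrix ι ι L := Matrix.of fun j r => if j ∈ I0 then ((y j r : ℤ) : L) else A j r
  let sc : ι → L := fun j => if j ∈ I0 then v j else 1
  have hAA : A = Matrix.of fun j r => sc j * A' j r := by
    ext j r
    simp only [Matrix.of_apply, sc, A']
    split_ifs with h
    · exact hA j h r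
    · rw [one_mul]
  have hA' : A'.det = 0 := by
    rw [← Matrix.exists_vecMul_eq_zero_iff]
    let G : ι → ℚ := fun j => if h : j ∈ I0 then g ⟨j, h⟩ else 0
    have hG : ∀ j : I0, G j = g j := fun j => by simp [G]
    have hG0 : ∀ j, j ∉ I0 → G j = 0 := fun j hj => by simp [G, hj]
    refine ⟨fun j => ((G j : ℚ) : L), ?_, ?_⟩
    · intro h0
      have h1 := congrFun h0 i0
      simp only [Pi.zero_apply, hG] at h1
      exact hi0 (by exact_mod_cast h1)
    · ext r
      rw [Pi.zero_apply, Matrix.vecMul, dotProduct]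
      have h1 : ∀ j, ((G j : ℚ) : L) * A' j r = ((G j * ((y j r : ℤ) : ℚ) : ℚ) : L) := by
        intro j
        by_cases h : j ∈ I0
        · simp only [A', Matrix.of_apply, if_pos h]
          push_cast
          rfl
        · rw [hG0 j h, zero_mul, Rat.cast_zero, zero_mul]
      rw [sum_congr rfl fun j _ => h1 j, ← Rat.cast_sum]
      have h2 : ∑ j, G j * ((y j r : ℤ) : ℚ) = 0 := by
        rw [← sum_subset (subset_univ I0) (fun j _ hj => by rw [hG0 j hj, zero_mul]),
          ← sum_coe_sort I0]
        rw [← hg2 r]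
        exact sum_congr rfl fun j _ => by rw [hG j]
      rw [h2, Rat.cast_zero]
  rw [hAA, Matrix.det_mul_column, hA', mul_zero]

end

theorem st_PDL (hDVB : ST_DVB) : ST_PDL := by
  intro L _ _ P hP hP0 ι _ _ M b R T t W hW hT hR hM
  obtain ⟨d0, dmono, dadd, dneg, dmul, -, -, -, -⟩ := hDVB L P hP hP0
  choose s c a y ω err hω hc hyW herr hMr using hM
  have hint : ∀ n : ℤ, Dv P 0 ((n : ℤ) : L) := fun n => by
    have := d0 (n : 𝓞 L)
    simpa using this
  let col : ∀ j, Option (Fin (s j)) → ι → L := fun j o r =>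
    match o with
    | none => err j r
    | some k => (ω j * c j k) * ((y j k r : ℤ) : L)
  have hcol : ∀ j, (fun r => M r j) = ∑ o, col j o := by
    intro j
    ext r
    rw [Finset.sum_apply, Fintype.sum_option, hMr j r, mul_sum, add_comm]
    congr 1
    refine sum_congr rfl fun k _ => ?_
    simp only [col]
    ring
  have hdet : M.det = ∑ φ : (∀ j, Option (Fin (s j))),
      Matrix.det (Matrix.of fun j r => col j (φ j) r) := by
    rw [← Matrix.det_transpose]
    have h1 : M.transpose.det = Matrix.detRowAlternating (fun j => ∑ o, col j o) := by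
      change Matrix.detRowAlternating (fun j => M.transpose j) = _
      congr 1
      funext j
      exact hcol j
    rw [h1]
    exact (Matrix.detRowAlternating (n := ι) (R := L)).toMultilinearMap.map_sum col
  rw [hdet]
  refine pdl_sum hP dadd _ _ _ fun φ _ => ?_
  set A : Matrix ι ι L := Matrix.of fun j r => col j (φ j) r with hA
  let τ : ι → ℕ := fun j => match φ j with
    | none => T
    | some k => a j k
  have hent : ∀ j r, Dv P (τ j) (A j r) := by
    intro j r
    simp only [hA, Matrix.of_apply, col, τ]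
    cases φ j with
    | none => exact herr j r
    | some k =>
      have h1 := dmul 0 (a j k) _ _ (hω j) (hc j k)
      have h2 := dmul _ 0 _ _ h1 (hint (y j k r))
      simpa using h2
  have hmain := pdl_det hP d0 dadd dneg dmul A τ hent
  let E : Finset ι := univ.filter fun j => φ j = none
  let I0 : Finset ι := univ.filter fun j => ∃ k, φ j = some k ∧ b + a j k < R
  let I1 : Finset ι := univ.filter fun j => ∃ k, φ j = some k ∧ R ≤ b + a j k
  have hcard : E.card + I0.card + I1.card = Fintype.card ι := by
    simp only [E, I0, I1, card_filter]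
    rw [← sum_add_distrib, ← sum_add_distrib, Fintype.card_eq_sum_ones]
    refine sum_congr rfl fun j _ => ?_
    cases hφ : φ j with
    | none => simp
    | some k =>
      by_cases hlt : b + a j k < R
      · have : ¬ R ≤ b + a j k := not_le.2 hlt
        simp [hlt, this]
      · have : R ≤ b + a j k := not_lt.1 hlt
        simp [hlt, this]
  by_cases h1 : Module.finrank ℚ W < I0.card
  · have : A.det = 0 := by
      refine pdl_dep A W I0 h1
        (fun j => match φ j with
          | none => 0
          | some k => ω j * c j k)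
        (fun j => match φ j with
          | none => 0
          | some k => y j k) ?_ ?_
      · intro j hj
        obtain ⟨k, hk, hlt⟩ := (mem_filter.1 hj).2
        simp only [hk]
        exact hyW j k hlt
      · intro j hj r
        obtain ⟨k, hk, hlt⟩ := (mem_filter.1 hj).2
        simp only [hA, Matrix.of_apply, hk, col]
    rw [this]
    exact pdl_zero hP t
  · rw [not_lt] at h1
    refine dmono t _ _ ?_ hmain
    have hE : E.card * T ≤ ∑ j, τ j := by
      calc E.card * T = ∑ j ∈ E, T := by rw [sum_const, smul_eq_mul]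
        _ ≤ ∑ j ∈ E, τ j := by
            refine sum_le_sum fun j hj => ?_
            have := (mem_filter.1 hj).2
            simp only [τ, this]
            exact le_rfl
        _ ≤ ∑ j, τ j := sum_le_sum_of_subset (subset_univ _)
    have hI1 : I1.card * (R - b) ≤ ∑ j, τ j := by
      calc I1.card * (R - b) = ∑ j ∈ I1, (R - b) := by rw [sum_const, smul_eq_mul]
        _ ≤ ∑ j ∈ I1, τ j := by
            refine sum_le_sum fun j hj => ?_
            obtain ⟨k, hk, hle⟩ := (mem_filter.1 hj).2
            simp only [τ, hk]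
            omega
        _ ≤ ∑ j, τ j := sum_le_sum_of_subset (subset_univ _)
    by_cases h2 : Fintype.card ι ≤ 2 * E.card
    · have : 2 * t ≤ 2 * (E.card * T) := by nlinarith
      omega
    · rw [not_le] at h2
      by_cases h3 : R ≤ b
      · have : t = 0 := by nlinarith
        omega
      · rw [not_le] at h3
        have h4 : Fintype.card ι ≤ 4 * I1.card := by omega
        obtain ⟨e, rfl⟩ := Nat.exists_eq_add_of_lt h3
        have h5 : b + e + 1 - b = e + 1 := by omega
        rw [h5] at hI1
        nlinarith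

end Pool.Helper99.SZ
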