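import Pool.Agent.Helper99.SZ.Stmts

set_option autoImplicit false

namespace Pool.Helper99.SZ

open NumberField

theorem dvb_mul {L : Type} [Field L] [NumberField L] {P : Ideal (𝓞 L)} (hP : P.IsPrime)
    (s t : ℕ) (x y : L) (hx : Dv P s x) (hy : Dv P t y) : Dv P (s + t) (x * y) := by
  obtain ⟨a, b, hb, ha, h⟩ := hx
  obtain ⟨a', b', hb', ha', h'⟩ := hy
  refine ⟨a * a', b * b', fun hm => ?_, ?_, ?_⟩
  · rcases hP.mem_or_mem hm with h1 | h1
    · exact hb h1
    · exact hb' h1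
  · rw [pow_add]; exact Ideal.mul_mem_mul ha ha'
  · change x * algebraMap (𝓞 L) L b = algebraMap (𝓞 L) L a at h
    change y * algebraMap (𝓞 L) L b' = algebraMap (𝓞 L) L a' at h'
    change x * y * algebraMap (𝓞 L) L (b * b') = algebraMap (𝓞 L) L (a * a')
    rw [map_mul, map_mul, ← h, ← h']; ring

theorem dvb_add {L : Type} [Field L] [NumberField L] {P : Ideal (𝓞 L)} (hP : P.IsPrime)
    (t : ℕ) (x y : L) (hx : Dv P t x) (hy : Dv P t y) : Dv P t (x + y) := by
  obtain ⟨a, b, hb, ha, h⟩ := hx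
  obtain ⟨a', b', hb', ha', h'⟩ := hy
  refine ⟨a * b' + a' * b, b * b', fun hm => ?_, ?_, ?_⟩
  · rcases hP.mem_or_mem hm with h1 | h1
    · exact hb h1
    · exact hb' h1
  · exact add_mem (Ideal.mul_mem_right _ _ ha) (Ideal.mul_mem_right _ _ ha')
  · change x * algebraMap (𝓞 L) L b = algebraMap (𝓞 L) L a at h
    change y * algebraMap (𝓞 L) L b' = algebraMap (𝓞 L) L a' at h'
    change (x + y) * algebraMap (𝓞 L) L (b * b') = algebraMap (𝓞 L) L (a * b' + a' * b)
    rw [map_mul, map_add, map_mul, map_mul, ← h, ← h']; ring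

theorem dvb_neg {L : Type} [Field L] [NumberField L] {P : Ideal (𝓞 L)}
    (t : ℕ) (x : L) (hx : Dv P t x) : Dv P t (-x) := by
  obtain ⟨a, b, hb, ha, h⟩ := hx
  refine ⟨-a, b, hb, neg_mem ha, ?_⟩
  change x * algebraMap (𝓞 L) L b = algebraMap (𝓞 L) L a at h
  change -x * algebraMap (𝓞 L) L b = algebraMap (𝓞 L) L (-a)
  rw [map_neg, ← h]; ring

theorem dvb_unit {L : Type} [Field L] [NumberField L] {P : Ideal (𝓞 L)} (_hP : P.IsPrime)
    (x : L) (hx : Dv P 1 (x - 1)) : x ≠ 0 ∧ Dv P 0 x ∧ Dv P 0 x⁻¹ := by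
  obtain ⟨a, b, hb, ha, h⟩ := hx
  rw [pow_one] at ha
  have hc : a + b ∉ P := fun hm => hb ((Ideal.add_mem_iff_right P ha).1 hm)
  have h1 : x * (b : L) = ((a + b : 𝓞 L) : L) := by
    change (x - 1) * algebraMap (𝓞 L) L b = algebraMap (𝓞 L) L a at h
    change x * algebraMap (𝓞 L) L b = algebraMap (𝓞 L) L (a + b)
    rw [map_add, ← h]; ring
  have hc0 : ((a + b : 𝓞 L) : L) ≠ 0 := by
    intro h0
    apply hc
    have : a + b = 0 := by
      apply RingOfIntegers.ext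
      rw [h0]; rfl
    rw [this]; exact P.zero_mem
  have hx0 : x ≠ 0 := by
    rintro rfl
    rw [zero_mul] at h1
    exact hc0 h1.symm
  refine ⟨hx0, ⟨a + b, b, hb, by simp, h1⟩, ⟨b, a + b, hc, by simp, ?_⟩⟩
  rw [← h1, inv_mul_cancel_left₀ hx0]

theorem st_DVB : ST_DVB := by
  intro L _ _ P hP hP0
  have h1 : (1 : 𝓞 L) ∉ P := (Ideal.ne_top_iff_one P).1 hP.ne_top
  have hmono : ∀ (s t : ℕ) (x : L), s ≤ t → Dv P t x → Dv P s x := by
    rintro s t x hst ⟨a, b, hb, ha, h⟩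
    exact ⟨a, b, hb, Ideal.pow_le_pow_right hst ha, h⟩
  have hint : ∀ x : 𝓞 L, Dv P 0 (x : L) := fun x => ⟨x, 1, h1, by simp, by simp⟩
  have hmul8 : ∀ (t : ℕ) (x y : L), 1 ≤ t → Dv P t (x - 1) → Dv P t (y - 1) →
      Dv P t (x * y - 1) := by
    intro t x y ht hx hy
    have hx0 := (dvb_unit hP x (hmono 1 t _ ht hx)).2.1
    have e : x * y - 1 = x * (y - 1) + (x - 1) := by ring
    rw [e]
    refine dvb_add hP t _ _ ?_ hx
    have := dvb_mul hP 0 t x (y - 1) hx0 hy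
    rwa [zero_add] at this
  have hinv : ∀ (t : ℕ) (x : L), 1 ≤ t → Dv P t (x - 1) → Dv P t (x⁻¹ - 1) := by
    intro t x ht hx
    obtain ⟨hx0, -, hxi⟩ := dvb_unit hP x (hmono 1 t _ ht hx)
    have e : x⁻¹ - 1 = x⁻¹ * (-(x - 1)) := by
      field_simp
      ring
    rw [e]
    have := dvb_mul hP 0 t _ _ hxi (dvb_neg t _ hx)
    rwa [zero_add] at this
  have hpow : ∀ (t : ℕ) (x : L) (k : ℕ), 1 ≤ t → Dv P t (x - 1) → Dv P t (x ^ k - 1) := by
    intro t x k ht hx
    induction k with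
    | zero =>
      rw [pow_zero, sub_self]
      exact ⟨0, 1, h1, zero_mem _, by simp⟩
    | succ k ih =>
      rw [pow_succ]
      exact hmul8 t _ _ ht ih hx
  refine ⟨hint, hmono, fun t x y => dvb_add hP t x y, fun t x => dvb_neg t x,
    fun s t x y => dvb_mul hP s t x y, fun x => dvb_unit hP x, ?_, hmul8, ?_⟩
  · intro t x k ht hx
    rcases k with k | k
    · rw [Int.ofNat_eq_natCast, zpow_natCast]
      exact hpow t x k ht hx
    · rw [zpow_negSucc]
      exact hinv t _ ht (hpow t x (k + 1) ht hx)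
  · rintro t w ⟨a, b, hb, ha, h⟩
    have hw : w * b = a := by
      apply RingOfIntegers.ext
      push_cast
      exact h
    have hmax : P.IsMaximal := hP.isMaximal hP0
    obtain ⟨y, i, hi, hyi⟩ := hmax.exists_inv hb
    have hco : IsCoprime b i := ⟨y, 1, by rw [one_mul]; exact hyi⟩
    obtain ⟨u, v, huv⟩ := hco.pow_right (n := t)
    have e : w = u * (w * b) + w * v * i ^ t := by
      calc w = w * (u * b + v * i ^ t) := by rw [huv, mul_one]
        _ = u * (w * b) + w * v * i ^ t := by ring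
    rw [e, hw]
    exact add_mem (Ideal.mul_mem_left _ _ ha) (Ideal.mul_mem_left _ _ (Ideal.pow_mem_pow hi t))

end Pool.Helper99.SZ
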