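import Pool.Agent.Helper99.SZ.Stmts

set_option autoImplicit false

namespace Pool.Helper99.SZ

open NumberField Finset

theorem st_PAR (hDVB : ST_DVB) (hPLV : ST_PLV) : ST_PAR := by
  intro L _ _ P hP hP0 p hp hpP ι _ _ M hdet q hq hqM Q B hQ hB hMB hqQ t ht
  obtain ⟨d0, dmono, dadd, dneg, dmul, -, -, -, dint⟩ := hDVB L P hP hP0
  let M' : Matrix ι ι L := Matrix.of fun i j => (q i : L) * M i j
  have hM' : M'.det = (∏ i, (q i : L)) * M.det := Matrix.det_mul_column _ _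
  have hint : IsIntegral ℤ M'.det := IsIntegral.det fun i j => hqM i j
  let w : 𝓞 L := ⟨M'.det, hint⟩
  have hw : (w : L) = M'.det := rfl
  have hq0 : (∏ i, (q i : L)) ≠ 0 := prod_ne_zero_iff.2 fun i _ =>
    Nat.cast_ne_zero.2 (hq i).ne'
  have hw0 : w ≠ 0 := by
    intro h
    have h1 : (w : L) = 0 := by rw [h]; rfl
    rw [hw, hM'] at h1
    exact mul_ne_zero hq0 hdet h1
  have hdv : Dv P t (w : L) := by
    rw [hw, hM']
    have h1 : Dv P 0 (∏ i, (q i : L)) := by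
      have := d0 (∏ i, (q i : 𝓞 L))
      simpa using this
    have h2 := dmul 0 t _ _ h1 ht
    rwa [zero_add] at h2
  have hwP := dint t w hdv
  set N := Fintype.card ι with hN
  have hQ0 : (0 : ℝ) < Q := by linarith
  have hB0 : (0 : ℝ) < B := by linarith
  have hQB : 1 ≤ Q * B := by nlinarith
  have hMb : (1 : ℝ) ≤ ((N : ℝ) * (Q * B)) ^ N := by
    rcases Nat.eq_zero_or_pos N with h | h
    · rw [h, pow_zero]
    · apply one_le_pow₀
      have : (1 : ℝ) ≤ N := by exact_mod_cast h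
      nlinarith
  have hτ : ∀ τ : L →+* ℂ, ‖τ (w : L)‖ ≤ ((N : ℝ) * (Q * B)) ^ N := by
    intro τ
    rw [hw, RingHom.map_det]
    have h0 : ∀ i j, NormedField.toAbsoluteValue ℂ (τ.mapMatrix M' i j) ≤ Q * B := by
      intro i j
      change ‖τ ((q i : L) * M i j)‖ ≤ Q * B
      rw [map_mul, norm_mul, map_natCast, Complex.norm_natCast]
      exact mul_le_mul (hqQ i) (hMB τ i j) (norm_nonneg _) hQ0.le
    have h1 : ‖(τ.mapMatrix M').det‖ ≤ N.factorial • (Q * B) ^ N := Matrix.det_le h0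
    refine h1.trans ?_
    have h3 : (N.factorial : ℝ) ≤ (N : ℝ) ^ N := by exact_mod_cast Nat.factorial_le_pow N
    calc N.factorial • (Q * B) ^ N = (N.factorial : ℝ) * (Q * B) ^ N := nsmul_eq_mul _ _
      _ ≤ (N : ℝ) ^ N * (Q * B) ^ N := mul_le_mul_of_nonneg_right h3 (by positivity)
      _ = ((N : ℝ) * (Q * B)) ^ N := (mul_pow _ _ _).symm
  have h2 := hPLV L P hP hP0 p hp hpP t w hw0 hwP _ hMb hτ
  refine h2.trans (le_of_eq ?_)
  congr 1
  rw [Real.log_pow]
  rcases Nat.eq_zero_or_pos N with h | h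
  · rw [h]; simp
  · have hN0 : (N : ℝ) ≠ 0 := by exact_mod_cast h.ne'
    rw [Real.log_mul hN0 (by positivity), Real.log_mul hQ0.ne' hB0.ne']
    ring

end Pool.Helper99.SZ
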