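import Pool.Agent.Helper99.SZ.Stmts

set_option autoImplicit false

namespace Pool.Helper99.SZ

open NumberField Finset

theorem st_PDET (hPDL : ST_PDL) (hPDX : ST_PDX) : ST_PDET := by
  intro L _ _ P hP hP0 n v K Lc R T t V hV J z hz g hg w hT hw h1 h2 h3
  obtain ⟨W, hW, hWx⟩ := hPDX L P hP hP0 n v K R T V hV J _ z hz g hg w hT hw
  have hcard : Fintype.card ((Fin v → Fin K) × Fin Lc) = K ^ v * Lc := by
    simp
  refine hPDL L P hP hP0 _ _ (v * K) R T t W ?_ ?_ ?_ ?_
  · rw [hcard]; omega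
  · rw [hcard]; exact h2
  · rw [hcard]; exact h3
  · intro j
    exact hWx j.1 j.2

end Pool.Helper99.SZ
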