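import Pool.Agent.Helper99.SZ.Stmts

set_option autoImplicit false

namespace Pool.Helper99.SZ

open NumberField Finset

theorem st_PLV : ST_PLV := by
  intro L _ _ P hP hP0 p hp hpP t w hw0 hwP M hM1 hτ
  -- the norm of `P`
  have hpN : p ≤ Ideal.absNorm P := by
    have h1 : P ∣ Ideal.span {((p : ℕ) : 𝓞 L)} := Ideal.dvd_span_singleton.2 hpP
    have h2 : Ideal.absNorm P ∣ Ideal.absNorm (Ideal.span {((p : ℕ) : 𝓞 L)}) :=
      map_dvd Ideal.absNorm h1
    rw [Ideal.absNorm_span_natCast] at h2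
    obtain ⟨f, -, hf⟩ := (Nat.dvd_prime_pow hp).1 h2
    have hf0 : f ≠ 0 := by
      rintro rfl
      rw [pow_zero, Ideal.absNorm_eq_one_iff] at hf
      exact hP.ne_top hf
    rw [hf]
    exact Nat.le_self_pow hf0 p
  have h3 : Ideal.absNorm P ^ t ∣ (Algebra.norm ℤ w).natAbs := by
    have h1 : P ^ t ∣ Ideal.span {w} := Ideal.dvd_span_singleton.2 hwP
    have h2 := map_dvd Ideal.absNorm h1
    rwa [map_pow, Ideal.absNorm_span_singleton] at h2
  have hn0 : (Algebra.norm ℤ w).natAbs ≠ 0 := by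
    rw [Int.natAbs_ne_zero]
    exact Algebra.norm_ne_zero_iff.2 hw0
  have h4 : p ^ t ≤ (Algebra.norm ℤ w).natAbs :=
    (Nat.pow_le_pow_left hpN t).trans (Nat.le_of_dvd (Nat.pos_of_ne_zero hn0) h3)
  -- the size of the norm
  have h5 : (((Algebra.norm ℤ w).natAbs : ℕ) : ℝ) ≤ M ^ Module.finrank ℚ L := by
    have e1 : (((Algebra.norm ℤ w).natAbs : ℕ) : ℝ) =
        ‖algebraMap ℚ ℂ (Algebra.norm ℚ (w : L))‖ := by
      rw [← Algebra.coe_norm_int]
      rw [Nat.cast_natAbs]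
      simp
    rw [e1, Algebra.norm_eq_prod_embeddings ℚ ℂ, norm_prod]
    calc ∏ σ : L →ₐ[ℚ] ℂ, ‖σ (w : L)‖ ≤ ∏ σ : L →ₐ[ℚ] ℂ, M :=
          prod_le_prod (fun _ _ => norm_nonneg _) fun σ _ => hτ σ.toRingHom
      _ = M ^ Module.finrank ℚ L := by
          rw [prod_const, card_univ, AlgHom.card]
  have h6 : ((p : ℝ)) ^ t ≤ M ^ Module.finrank ℚ L := by
    refine le_trans ?_ h5
    exact_mod_cast h4
  have hp0 : (0 : ℝ) < p := by exact_mod_cast hp.pos
  have h7 := Real.log_le_log (pow_pos hp0 t) h6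
  rwa [Real.log_pow, Real.log_pow] at h7

end Pool.Helper99.SZ
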