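import Pool.Agent.Helper99.SZ.Stmts4
import Pool.Agent.Helper67.SZ.CU3

/-!
Module QC3 of the crew project on MP_bde085_nt: a rational `S`-unit is a unit at the `P_j`,
quadratic fields.
-/

set_option autoImplicit false

namespace Pool.Helper99.SZ

open NumberField

theorem st_QC3 (hVAL : ST_VAL) (hVALS : ST_VALS) : ST_QC3 := by
  intro K _ _ τ β a b m p P 𝔞 hcd q u x hu hSU
  funext j
  have hpj := hcd.pp j
  have hpK : ((p j : ℕ) : K) ≠ 0 := by exact_mod_cast hpj.ne_zero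
  have hpO : ((p j : ℕ) : 𝓞 K) ≠ 0 := by exact_mod_cast hpj.ne_zero
  obtain ⟨y, hy⟩ : ∃ y : Kˣ, (y : K) = ((p j : ℕ) : K) := ⟨Units.mk0 _ hpK, rfl⟩
  obtain ⟨Q, hQ, hpQ, hQP⟩ := hcd.oth j
  have hQ0 : Q ≠ ⊥ := by
    rintro rfl
    exact hpO ((Ideal.mem_bot).mp hpQ)
  obtain ⟨v, hv⟩ := hVAL K (P j) (hcd.pr j).1 (hcd.pr j).2
  obtain ⟨w, hw⟩ := hVAL K Q hQ hQ0
  have h1 := (hVALS K m P hcd.inj hcd.pr x u hSU (P j) (hcd.pr j).1 (hcd.pr j).2 v hv).1 j rfl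
  have h2 := (hVALS K m P hcd.inj hcd.pr x u hSU Q hQ hQ0 w hw).2 (by
    intro i hi
    by_cases hij : i = j
    · subst hij
      exact hQP hi.symm
    · have hcop : (p i).Coprime (p j) :=
        (Nat.coprime_primes (hcd.pp i) hpj).mpr (fun h => hij (hcd.pinj h))
      have hpi : ((p i : ℕ) : 𝓞 K) ∈ Q := by
        rw [← hi]
        exact hcd.pm i
      apply hQ.ne_top
      rw [Ideal.eq_top_iff_one]
      have h3 : ((p i : ℕ) : ℤ) * Nat.gcdA (p i) (p j) + ((p j : ℕ) : ℤ) * Nat.gcdB (p i) (p j) =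
          1 := by
        rw [← Nat.gcd_eq_gcd_ab, hcop]
        rfl
      have h4 : ((p i : ℕ) : 𝓞 K) * ((Nat.gcdA (p i) (p j) : ℤ) : 𝓞 K) +
          ((p j : ℕ) : 𝓞 K) * ((Nat.gcdB (p i) (p j) : ℤ) : 𝓞 K) = 1 := by exact_mod_cast h3
      rw [← h4]
      exact Q.add_mem (Q.mul_mem_right _ hpi) (Q.mul_mem_right _ hpQ))
  have h5 := cu3_rat (hcd.pr j).1 hv (p j) hpj (hcd.pm j) y hy q u hu
  have h6 := cu3_rat hQ hw (p j) hpj hpQ y hy q u hu
  have h7 : (1 : ℤ) ≤ w y := by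
    have := (hw.dv 1 y).mp ⟨((p j : ℕ) : 𝓞 K), 1,
      fun h => hQ.ne_top ((Ideal.eq_top_iff_one Q).mpr h), by rw [pow_one]; exact hpQ, by
        rw [hy]; simp⟩
    simpa using this
  rw [h2] at h6
  rcases mul_eq_zero.mp h6.symm with h8 | h8
  · rw [h1, h8, zero_mul] at h5
    rw [h5]
    rfl
  · omega

end Pool.Helper99.SZ
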