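import Pool.Agent.Helper99.SZ.Stmts4
import Pool.Agent.Helper67.SZ.CU3

/-!
Module QQX of the crew project on MP_bde085_nt: primes over the prime divisors of the discriminant.
-/

set_option autoImplicit false

namespace Pool.Helper99.SZ

open NumberField

section

variable {K : Type} [Field K] [NumberField K]

theorem qqx_cop {Q : Ideal (𝓞 K)} (hQ : Q.IsPrime) (q : ℕ) (hq : q.Prime)
    (hqQ : ((q : ℕ) : 𝓞 K) ∈ Q) (n : ℤ) (hn : ¬ (q : ℤ) ∣ n) : ((n : ℤ) : 𝓞 K) ∉ Q := by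
  intro h
  have hc : IsCoprime (q : ℤ) n := (Nat.prime_iff_prime_int.1 hq).coprime_iff_not_dvd.2 hn
  obtain ⟨u, v, huv⟩ := hc
  apply hQ.ne_top
  rw [Ideal.eq_top_iff_one]
  have h2 : ((u : ℤ) : 𝓞 K) * ((q : ℕ) : 𝓞 K) + ((v : ℤ) : 𝓞 K) * ((n : ℤ) : 𝓞 K) = 1 := by
    exact_mod_cast congrArg (fun z : ℤ => (z : 𝓞 K)) huv
  rw [← h2]
  exact Q.add_mem (Q.mul_mem_left _ hqQ) (Q.mul_mem_left _ h)

theorem qqx_zero (hDVB : ST_DVB) {Q : Ideal (𝓞 K)} (hQ : Q.IsPrime) (hQ0 : Q ≠ ⊥)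
    {w : Kˣ → ℤ} (hw : IsVal Q w) (x : 𝓞 K) (hx : x ∉ Q) (X : Kˣ) (hX : (X : K) = x) :
    w X = 0 := by
  obtain ⟨h1, -, -, -, -, -, -, -, h9⟩ := hDVB K Q hQ hQ0
  have h0 : (0 : ℤ) ≤ w X := by
    have := (hw.dv 0 X).mp (by rw [hX]; exact h1 x)
    simpa using this
  have h2 : ¬ (1 : ℤ) ≤ w X := by
    intro h
    have h3 := (hw.dv 1 X).mpr (by simpa using h)
    rw [hX] at h3
    have h4 := h9 1 x h3
    rw [pow_one] at h4
    exact hx h4
  omega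

theorem qqx_su (hVAL : ST_VAL) (hVALS : ST_VALS) {m : ℕ} {P : Fin m → Ideal (𝓞 K)}
    (hinj : Function.Injective P) (hpr : ∀ j, (P j).IsPrime ∧ P j ≠ ⊥) {Q : Ideal (𝓞 K)}
    (hQ : Q.IsPrime) (hQ0 : Q ≠ ⊥) (hPQ : ∀ j, P j ≠ Q) (u : Kˣ) (x : Fin m → ℤ)
    (hu : SU P x u) : Dv Q 0 (u : K) ∧ Dv Q 0 (u : K)⁻¹ := by
  obtain ⟨w, hw⟩ := hVAL K Q hQ hQ0
  have h1 := (hVALS K m P hinj hpr x u hu Q hQ hQ0 w hw).2 hPQ
  refine ⟨(hw.dv 0 u).mpr (by simp [h1]), ?_⟩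
  have h2 := (hw.dv 0 u⁻¹).mpr (by rw [cu3_inv hw, h1]; simp)
  rwa [Units.val_inv_eq_inv_val] at h2

theorem qqx_map (τ : K →+* K) (Q : Ideal (𝓞 K)) (x : K)
    (h : Dv (Ideal.comap (RingOfIntegers.mapRingHom τ) Q) 0 x) : Dv Q 0 (τ x) := by
  obtain ⟨a, b, hb, -, hab⟩ := h
  refine ⟨RingOfIntegers.mapRingHom τ a, RingOfIntegers.mapRingHom τ b, hb, by simp, ?_⟩
  rw [RingOfIntegers.mapRingHom_apply, RingOfIntegers.mapRingHom_apply, ← map_mul, hab]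

/-- a prime ideal of norm `q` has the residue field `F_q` -/
theorem qqx_res {Q : Ideal (𝓞 K)} (q : ℕ) (hq : q.Prime) (hN : Ideal.absNorm Q = q) (x : 𝓞 K) :
    ∃ n : ℕ, x - (n : 𝓞 K) ∈ Q := by
  have hc : Nat.card (𝓞 K ⧸ Q) = q := by
    rw [← hN, Ideal.absNorm_apply, Submodule.cardQuot_apply]
  have hfin : Finite (𝓞 K ⧸ Q) := Nat.finite_of_card_ne_zero (by rw [hc]; exact hq.ne_zero)
  let _ : Fintype (𝓞 K ⧸ Q) := Fintype.ofFinite _
  have hc' : Fintype.card (𝓞 K ⧸ Q) = q := by rw [← Nat.card_eq_fintype_card]; exact hc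
  have : NeZero q := ⟨hq.ne_zero⟩
  let e := ZMod.ringEquivOfPrime (𝓞 K ⧸ Q) hq hc'
  refine ⟨(e.symm (Ideal.Quotient.mk Q x)).val, ?_⟩
  rw [← Ideal.Quotient.eq]
  rw [map_natCast]
  have h1 : (((e.symm (Ideal.Quotient.mk Q x)).val : ℕ) : ZMod q) =
      e.symm (Ideal.Quotient.mk Q x) := ZMod.natCast_zmod_val _
  have h2 := congrArg e h1
  rw [map_natCast, RingEquiv.apply_symm_apply] at h2
  exact h2.symm

end

theorem st_QQX (hVAL : ST_VAL) (hVALS : ST_VALS) (hDVB : ST_DVB) : ST_QQX := by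
  intro K _ _ τ β a b m p P 𝔞 hqd q hq hqd' hqb
  have hdeg : Module.finrank ℤ (𝓞 K) = 2 := by
    rw [RingOfIntegers.rank]; exact hqd.qf.deg
  have hqO : ((q : ℕ) : 𝓞 K) ≠ 0 := by exact_mod_cast hq.ne_zero
  have hspan : Ideal.absNorm (Ideal.span {((q : ℕ) : 𝓞 K)}) = q ^ 2 := by
    rw [Ideal.absNorm_span_natCast, hdeg]
  obtain ⟨Q, hQm, hqQ⟩ : ∃ Q : Ideal (𝓞 K), Q.IsMaximal ∧ ((q : ℕ) : 𝓞 K) ∈ Q := by
    have h1 : Ideal.span {((q : ℕ) : 𝓞 K)} ≠ ⊤ := by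
      rw [Ne, ← Ideal.absNorm_eq_one_iff, hspan]
      have := hq.two_le
      nlinarith
    obtain ⟨Q, hQ, hle⟩ := Ideal.exists_le_maximal _ h1
    exact ⟨Q, hQ, hle (Ideal.mem_span_singleton_self _)⟩
  have hQ : Q.IsPrime := hQm.isPrime
  have hQ0 : Q ≠ ⊥ := by
    rintro rfl
    exact hqO ((Ideal.mem_bot).mp hqQ)
  obtain ⟨β', hβ'⟩ : ∃ β' : 𝓞 K, β' = -(a : 𝓞 K) - β := ⟨_, rfl⟩
  have hβK : (β' : K) = τ (β : K) := by
    have h := hqd.qf.add
    have h' : ((-(a : 𝓞 K) - β : 𝓞 K) : K) = -(a : K) - (β : K) := by simp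
    rw [hβ', h']
    linear_combination -h
  have hsum : β + β' = -(a : 𝓞 K) := by rw [hβ']; ring
  have hmul : β * β' = (b : 𝓞 K) := by
    apply RingOfIntegers.coe_injective
    have h := hqd.qf.mul
    rw [← hβK] at h
    simpa using h
  have hbQ : ((b : ℤ) : 𝓞 K) ∉ Q := qqx_cop hQ q hq hqQ b hqb
  have hβ'Q : β' ∉ Q := fun h => hbQ (by rw [← hmul]; exact Q.mul_mem_left _ h)
  have hd : (β - β') ^ 2 = ((a ^ 2 - 4 * b : ℤ) : 𝓞 K) := by
    have : (β - β') ^ 2 = (β + β') ^ 2 - 4 * (β * β') := by ring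
    rw [this, hsum, hmul]
    push_cast
    ring
  have hδ0 : β - β' ≠ 0 := by
    intro h
    apply hqd.qf.ne
    rw [← hβK]
    have h1 : β = β' := sub_eq_zero.1 h
    rw [← h1]
  have hδK : ((β - β' : 𝓞 K) : K) ≠ 0 := by
    intro h
    exact hδ0 (RingOfIntegers.coe_injective (by simpa using h))
  have hd0 : (a ^ 2 - 4 * b : ℤ) ≠ 0 := by
    intro h
    rw [h, Int.cast_zero] at hd
    exact hδ0 (pow_eq_zero_iff (two_ne_zero) |>.1 hd)
  have hβ'0 : (β' : K) ≠ 0 := by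
    intro h
    have : β' = 0 := RingOfIntegers.coe_injective (by simpa using h)
    exact hβ'Q (by rw [this]; exact Q.zero_mem)
  obtain ⟨w, hw⟩ := hVAL K Q hQ hQ0
  have hqK : ((q : ℕ) : K) ≠ 0 := by exact_mod_cast hq.ne_zero
  obtain ⟨y, hy⟩ : ∃ y : Kˣ, (y : K) = ((q : ℕ) : K) := ⟨Units.mk0 _ hqK, rfl⟩
  obtain ⟨Δ, hΔ⟩ : ∃ y : Kˣ, (y : K) = ((β - β' : 𝓞 K) : K) := ⟨Units.mk0 _ hδK, rfl⟩
  obtain ⟨B, hB⟩ : ∃ y : Kˣ, (y : K) = (β' : K) := ⟨Units.mk0 _ hβ'0, rfl⟩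
  have hn0 : (a ^ 2 - 4 * b).natAbs ≠ 0 := Int.natAbs_ne_zero.2 hd0
  have hnK : (((a ^ 2 - 4 * b).natAbs : ℕ) : K) ≠ 0 := by exact_mod_cast hn0
  obtain ⟨E, hE⟩ : ∃ y : Kˣ, (y : K) = (((a ^ 2 - 4 * b).natAbs : ℕ) : K) :=
    ⟨Units.mk0 _ hnK, rfl⟩
  have hwE := cu3_nat hQ hw q hq hqQ y hy _ hn0 E hE
  set v := (a ^ 2 - 4 * b).natAbs.factorization q with hv
  have hΔE : w (Δ ^ 2) = w E := by
    have hdK : ((Δ ^ 2 : Kˣ) : K) = ((a ^ 2 - 4 * b : ℤ) : K) := by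
      have := congrArg (fun z : 𝓞 K => (z : K)) hd
      push_cast at this ⊢
      rw [hΔ]
      push_cast
      exact this
    rcases Int.natAbs_eq (a ^ 2 - 4 * b) with h | h
    · have h1 : Δ ^ 2 = E := by
        apply Units.ext
        rw [hdK, hE]
        have := congrArg (fun z : ℤ => (z : K)) h
        simpa using this
      rw [h1]
    · have h1 : Δ ^ 2 = -E := by
        apply Units.ext
        rw [hdK]
        push_cast
        rw [hE]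
        have := congrArg (fun z : ℤ => (z : K)) h
        simpa using this
      rw [h1, cu3_neg hw]
  have hw2 : 2 * w Δ = v * w y := by
    rw [← hwE, ← hΔE, cu3_pow hw]
    push_cast
    ring
  have hone : (1 : 𝓞 K) ∉ Q := fun h => hQ.ne_top ((Ideal.eq_top_iff_one Q).mpr h)
  have hwy : (1 : ℤ) ≤ w y := by
    have := (hw.dv 1 y).mp ⟨((q : ℕ) : 𝓞 K), 1, hone, by rw [pow_one]; exact hqQ, by
        rw [hy]; simp⟩
    simpa using this
  have hwB : w B = 0 := qqx_zero hDVB hQ hQ0 hw β' hβ'Q B hB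
  refine ⟨Q, hQ, hQ0, hqQ, ?_, ?_, ?_⟩
  · have hX : (β : K) / τ (β : K) - 1 = ((Δ * B⁻¹ : Kˣ) : K) := by
      rw [← hβK]
      push_cast
      rw [hΔ, hB]
      push_cast
      field_simp
    rw [hX]
    refine (hw.dv _ _).mpr ?_
    rw [hw.mul, cu3_inv hw, hwB]
    have hv0 : (0 : ℤ) ≤ v := Int.natCast_nonneg _
    have h1 : (v : ℤ) ≤ 2 * w Δ := by
      rw [hw2]
      nlinarith
    push_cast
    omega
  · intro u x hu
    have hnQ : ∀ j, ((p j : ℕ) : 𝓞 K) ∉ Q := by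
      intro j
      have h1 := qqx_cop hQ q hq hqQ ((p j : ℕ) : ℤ) (fun h => hqb (h.trans (hqd.pd j)))
      simpa using h1
    have hPQ : ∀ j, P j ≠ Q := by
      intro j h
      exact hnQ j (by rw [← h]; exact hqd.pm j)
    have hQ' : (Ideal.comap (RingOfIntegers.mapRingHom τ) Q).IsPrime :=
      Ideal.comap_isPrime _ _
    have hqQ' : ((q : ℕ) : 𝓞 K) ∈ Ideal.comap (RingOfIntegers.mapRingHom τ) Q := by
      rw [Ideal.mem_comap, map_natCast]; exact hqQ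
    have hQ'0 : Ideal.comap (RingOfIntegers.mapRingHom τ) Q ≠ ⊥ := by
      intro h
      rw [h] at hqQ'
      exact hqO ((Ideal.mem_bot).mp hqQ')
    have hPQ' : ∀ j, P j ≠ Ideal.comap (RingOfIntegers.mapRingHom τ) Q := by
      intro j h
      have h1 := hqd.pm j
      rw [h, Ideal.mem_comap, map_natCast] at h1
      exact hnQ j h1
    have h1 := qqx_su hVAL hVALS hqd.inj hqd.pr hQ' hQ'0 hPQ' u x hu
    refine ⟨qqx_su hVAL hVALS hqd.inj hqd.pr hQ hQ0 hPQ u x hu, qqx_map τ Q _ h1.1, ?_⟩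
    rw [← map_inv₀]
    exact qqx_map τ Q _ h1.2
  · intro hodd x
    have h2 : (2 : ℤ) ≤ w y := by
      obtain ⟨k, hk⟩ := hodd
      rw [hk] at hw2
      push_cast at hw2
      by_contra h
      have h3 : w y = 1 := by omega
      rw [h3] at hw2
      omega
    obtain ⟨-, -, -, -, -, -, -, -, h9⟩ := hDVB K Q hQ hQ0
    have hq2 : ((q : ℕ) : 𝓞 K) ∈ Q ^ 2 := by
      apply h9 2
      have := (hw.dv 2 y).mpr (by simpa using h2)
      rw [hy] at this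
      simpa using this
    have hle : Ideal.span {((q : ℕ) : 𝓞 K)} ≤ Q ^ 2 := by
      rw [Ideal.span_le]
      intro z hz
      rw [Set.mem_singleton_iff] at hz
      rw [hz]
      exact hq2
    have hN : Ideal.absNorm Q = q := by
      have h3 := Ideal.absNorm_dvd_absNorm_of_le hle
      rw [hspan, map_pow] at h3
      have h4 : Ideal.absNorm Q ∣ q := (Nat.pow_dvd_pow_iff two_ne_zero).1 h3
      rcases (Nat.dvd_prime hq).1 h4 with h5 | h5
      · exact absurd (Ideal.absNorm_eq_one_iff.1 h5) hQ.ne_top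
      · exact h5
    have hQ2 : Q ^ 2 = Ideal.span {((q : ℕ) : 𝓞 K)} := by
      obtain ⟨I, hI⟩ := Ideal.dvd_iff_le.2 hle
      have h3 := congrArg Ideal.absNorm hI
      rw [hspan, map_mul, map_pow, hN] at h3
      have h4 : Ideal.absNorm I = 1 := by
        have hpos : 0 < q ^ 2 := pow_pos hq.pos 2
        exact Nat.eq_of_mul_eq_mul_left hpos (by rw [← h3, mul_one])
      rw [hI, Ideal.absNorm_eq_one_iff.1 h4, Ideal.mul_top]
    obtain ⟨n, hn⟩ := qqx_res q hq hN x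
    set z : 𝓞 K := x - (n : 𝓞 K) with hz
    have hτz : RingOfIntegers.mapRingHom τ z ∈ Q := by
      have h3 : z ^ 2 ∈ Q ^ 2 := Ideal.pow_mem_pow hn 2
      rw [hQ2, Ideal.mem_span_singleton] at h3
      obtain ⟨t, ht⟩ := h3
      have h4 : (RingOfIntegers.mapRingHom τ z) ^ 2 ∈ Q := by
        rw [← map_pow, ht, map_mul, map_natCast]
        exact Q.mul_mem_right _ hqQ
      exact hQ.mem_of_pow_mem 2 h4
    have e : x - RingOfIntegers.mapRingHom τ x = z - RingOfIntegers.mapRingHom τ z := by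
      rw [hz, map_sub, map_natCast]
      ring
    refine ⟨x - RingOfIntegers.mapRingHom τ x, 1, hone, ?_, ?_⟩
    · rw [pow_one, e]
      exact Q.sub_mem hn hτz
    · have h3 : ((x - RingOfIntegers.mapRingHom τ x : 𝓞 K) : K) =
          (x : K) - ((RingOfIntegers.mapRingHom τ x : 𝓞 K) : K) := by simp
      rw [h3, RingOfIntegers.mapRingHom_apply]
      simp

end Pool.Helper99.SZ
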