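import Pool.Agent.Helper99.SZ.Stmts

set_option autoImplicit false

namespace Pool.Helper99.SZ

open NumberField IsDedekindDomain

theorem st_VAL : ST_VAL := by
  intro K _ _ P hP hP0
  let w : HeightOneSpectrum (𝓞 K) := ⟨P, hP, hP0⟩
  have hne : ∀ x : Kˣ, w.valuation K (x : K) ≠ 0 := fun x =>
    (Valuation.ne_zero_iff _).2 x.ne_zero
  refine ⟨fun x => - WithZero.log (w.valuation K (x : K)), ?_, ?_⟩
  · intro x y
    rw [Units.val_mul, map_mul, WithZero.log_mul (hne x) (hne y)]
    ring
  · intro t x
    have h1 : ((t : ℤ) ≤ - WithZero.log (w.valuation K (x : K))) ↔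
        w.valuation K (x : K) ≤ WithZero.exp (-(t : ℤ)) := by
      rw [← WithZero.log_le_iff_le_exp (hne x)]
      omega
    rw [h1]
    constructor
    · rintro ⟨a, b, hb, ha, h⟩
      change (x : K) * algebraMap (𝓞 K) K b = algebraMap (𝓞 K) K a at h
      have hb1 : w.valuation K (algebraMap (𝓞 K) K b) = 1 :=
        (w.valuation_eq_one_iff_notMem (K := K)).2 hb
      have h2 := congrArg (w.valuation K) h
      rw [map_mul, hb1, mul_one, HeightOneSpectrum.valuation_of_algebraMap] at h2
      rw [h2]
      exact (w.intValuation_le_pow_iff_mem a t).2 ha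
    · intro h
      have hle : w.valuation K (x : K) ≤ 1 := by
        refine h.trans ?_
        rw [← WithZero.exp_zero, WithZero.exp_le_exp]
        omega
      obtain ⟨a, b, hab⟩ := w.exists_primeCompl_mul_eq_of_integer (x : K) hle
      have hb : (b : 𝓞 K) ∉ P := b.2
      refine ⟨a, b, hb, ?_, hab⟩
      have hb1 : w.valuation K (algebraMap (𝓞 K) K (b : 𝓞 K)) = 1 :=
        (w.valuation_eq_one_iff_notMem (K := K)).2 hb
      have h2 := congrArg (w.valuation K) hab
      rw [map_mul, hb1, mul_one, HeightOneSpectrum.valuation_of_algebraMap] at h2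
      rw [h2] at h
      exact (w.intValuation_le_pow_iff_mem a t).1 h

end Pool.Helper99.SZ
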