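import Pool.Agent.Helper99.SZ.Stmts

set_option autoImplicit false

namespace Pool.Helper99.SZ

open NumberField IsDedekindDomain

theorem vals_count {K : Type} [Field K] [NumberField K] (w : HeightOneSpectrum (𝓞 K)) (x : K)
    (hx : x ≠ 0) : - WithZero.log (w.valuation K x) =
      FractionalIdeal.count K w (FractionalIdeal.spanSingleton (nonZeroDivisors (𝓞 K)) x) := by
  obtain ⟨r, s, hs, rfl⟩ := IsFractionRing.div_surjective (A := 𝓞 K) x
  have hs0 : s ≠ 0 := nonZeroDivisors.ne_zero hs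
  have hr0 : r ≠ 0 := by
    rintro rfl
    simp at hx
  have h1 : FractionalIdeal.spanSingleton (nonZeroDivisors (𝓞 K))
      (algebraMap (𝓞 K) K r / algebraMap (𝓞 K) K s) =
      FractionalIdeal.spanSingleton (nonZeroDivisors (𝓞 K)) (algebraMap (𝓞 K) K s)⁻¹ *
        ((Ideal.span {r} : Ideal (𝓞 K)) : FractionalIdeal (nonZeroDivisors (𝓞 K)) K) := by
    rw [FractionalIdeal.coeIdeal_span_singleton, FractionalIdeal.spanSingleton_mul_spanSingleton]
    congr 1
    rw [div_eq_mul_inv, mul_comm]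
  have hI : FractionalIdeal.spanSingleton (nonZeroDivisors (𝓞 K))
      (algebraMap (𝓞 K) K r / algebraMap (𝓞 K) K s) ≠ 0 := by
    rw [Ne, FractionalIdeal.spanSingleton_eq_zero_iff]
    exact hx
  rw [FractionalIdeal.count_well_defined K w hI h1, map_div₀,
    HeightOneSpectrum.valuation_of_algebraMap, HeightOneSpectrum.valuation_of_algebraMap,
    w.intValuation_if_neg hr0, w.intValuation_if_neg hs0, ← WithZero.exp_sub, WithZero.log_exp]
  ring

theorem vals_dv {K : Type} [Field K] [NumberField K] (w : HeightOneSpectrum (𝓞 K)) (t : ℕ)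
    (x : Kˣ) : Dv w.asIdeal t (x : K) ↔ (t : ℤ) ≤ - WithZero.log (w.valuation K (x : K)) := by
  have hne : w.valuation K (x : K) ≠ 0 := (Valuation.ne_zero_iff _).2 x.ne_zero
  have h1 : ((t : ℤ) ≤ - WithZero.log (w.valuation K (x : K))) ↔
      w.valuation K (x : K) ≤ WithZero.exp (-(t : ℤ)) := by
    rw [← WithZero.log_le_iff_le_exp hne]
    omega
  rw [h1]
  constructor
  · rintro ⟨a, b, hb, ha, h⟩
    change (x : K) * algebraMap (𝓞 K) K b = algebraMap (𝓞 K) K a at h
    have hb1 : w.valuation K (algebraMap (𝓞 K) K b) = 1 :=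
      (w.valuation_eq_one_iff_notMem (K := K)).2 hb
    have h2 := congrArg (w.valuation K) h
    rw [map_mul, hb1, mul_one, HeightOneSpectrum.valuation_of_algebraMap] at h2
    rw [h2]
    exact (w.intValuation_le_pow_iff_mem a t).2 ha
  · intro h
    have hle : w.valuation K (x : K) ≤ 1 := by
      refine h.trans ?_
      rw [← WithZero.exp_zero, WithZero.exp_le_exp]
      omega
    obtain ⟨a, b, hab⟩ := w.exists_primeCompl_mul_eq_of_integer (x : K) hle
    have hb : (b : 𝓞 K) ∉ w.asIdeal := b.2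
    refine ⟨a, b, hb, ?_, hab⟩
    have hb1 : w.valuation K (algebraMap (𝓞 K) K (b : 𝓞 K)) = 1 :=
      (w.valuation_eq_one_iff_notMem (K := K)).2 hb
    have h2 := congrArg (w.valuation K) hab
    rw [map_mul, hb1, mul_one, HeightOneSpectrum.valuation_of_algebraMap] at h2
    rw [h2] at h
    exact (w.intValuation_le_pow_iff_mem a t).1 h

theorem vals_uni {K : Type} [Field K] [NumberField K] {Q : Ideal (𝓞 K)} {v v' : Kˣ → ℤ}
    (h : IsVal Q v) (h' : IsVal Q v') (x : Kˣ) : v x = v' x := by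
  have key : ∀ {v v' : Kˣ → ℤ}, IsVal Q v → IsVal Q v' → ∀ x : Kˣ, 0 ≤ v x → v x = v' x := by
    intro v v' h h' x hx
    have h1 : (((v x).toNat : ℕ) : ℤ) ≤ v' x := (h'.dv _ x).1 ((h.dv _ x).2 (by omega))
    have h2 : (((v' x).toNat : ℕ) : ℤ) ≤ v x := (h.dv _ x).1 ((h'.dv _ x).2 (by omega))
    omega
  have hone : ∀ {v : Kˣ → ℤ}, IsVal Q v → v 1 = 0 := by
    intro v h
    have := h.mul 1 1
    rw [mul_one] at this
    omega
  have hinv : ∀ {v : Kˣ → ℤ}, IsVal Q v → ∀ x : Kˣ, v x⁻¹ = - v x := by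
    intro v h x
    have := h.mul x x⁻¹
    rw [mul_inv_cancel, hone h] at this
    omega
  rcases le_total 0 (v x) with hx | hx
  · exact key h h' x hx
  · have h1 := key h h' x⁻¹ (by rw [hinv h]; omega)
    rw [hinv h, hinv h'] at h1
    omega

theorem st_VALS : ST_VALS := by
  intro K _ _ m P hinj hP a u hu Q hQ hQ0 v hv
  let w : HeightOneSpectrum (𝓞 K) := ⟨Q, hQ, hQ0⟩
  have hne : ∀ x : Kˣ, w.valuation K (x : K) ≠ 0 := fun x =>
    (Valuation.ne_zero_iff _).2 x.ne_zero
  have hv' : IsVal Q (fun x : Kˣ => - WithZero.log (w.valuation K (x : K))) := by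
    refine ⟨fun x y => ?_, fun t x => vals_dv w t x⟩
    rw [Units.val_mul, map_mul, WithZero.log_mul (hne x) (hne y)]
    ring
  have h1 : v u = ∑ j, a j * FractionalIdeal.count K w
      ((P j : Ideal (𝓞 K)) : FractionalIdeal (nonZeroDivisors (𝓞 K)) K) := by
    rw [vals_uni hv hv' u, vals_count w u u.ne_zero]
    unfold SU at hu
    rw [hu, FractionalIdeal.count_prod]
    · exact Finset.sum_congr rfl fun j _ => FractionalIdeal.count_zpow K w _ _
    · intro j _
      exact zpow_ne_zero _ (FractionalIdeal.coeIdeal_ne_zero.2 (hP j).2)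
  have h2 : ∀ j, P j ≠ Q → FractionalIdeal.count K w
      ((P j : Ideal (𝓞 K)) : FractionalIdeal (nonZeroDivisors (𝓞 K)) K) = 0 := by
    intro j hj
    let w' : HeightOneSpectrum (𝓞 K) := ⟨P j, (hP j).1, (hP j).2⟩
    have hne' : w' ≠ w := fun h => hj (congrArg HeightOneSpectrum.asIdeal h)
    exact FractionalIdeal.count_maximal_coprime K w hne'
  constructor
  · intro j hj
    rw [h1, Finset.sum_eq_single j]
    · have h3 : FractionalIdeal.count K w
          ((P j : Ideal (𝓞 K)) : FractionalIdeal (nonZeroDivisors (𝓞 K)) K) = 1 := by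
        rw [hj]
        exact FractionalIdeal.count_self K w
      rw [h3, mul_one]
    · intro i _ hij
      rw [h2 i (fun h => hij (hinj (h.trans hj.symm))), mul_zero]
    · intro h
      exact absurd (Finset.mem_univ j) h
  · intro h
    rw [h1]
    exact Finset.sum_eq_zero fun j _ => by rw [h2 j (h j), mul_zero]

end Pool.Helper99.SZ
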